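import Pool.Agent.K1H88.T3.Stm

/-! Piece FA of the project T3: from classes to pairs. -/

set_option autoImplicit false

namespace Pool.Agent.K1H74.T3

open Finset Filter Topology Pool.Agent.K1H88.T3
open Pool.Agent.K1H81.TT (Semistable rootNumber height QQ gg mm e)

lemma not_three {a b : ℤ} (ha : ¬ (3 : ℤ) ∣ a) : ¬ (3 : ℤ) ∣ F4 a b := by
  intro h
  unfold F4 at h
  rcases Int.prime_three.dvd_mul.1 h with h | h
  · exact ha h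
  · have e : a ^ 3 = (a ^ 3 - 24 * b) + 3 * (8 * b) := by ring
    have h2 : (3 : ℤ) ∣ a ^ 3 := by
      rw [e]
      exact dvd_add h (dvd_mul_right _ _)
    exact ha (Int.prime_three.dvd_of_dvd_pow h2)

lemma root_twelve {x : ℝ} (hx : 0 ≤ x) : (x ^ ((1 : ℝ) / 12)) ^ 12 = x := by
  rw [← Real.rpow_natCast, ← Real.rpow_mul hx]
  norm_num

lemma Yh_nonneg (Z : ℕ) : 0 ≤ Yh Z := by
  unfold Yh
  positivity

lemma Yh_twelve (Z : ℕ) : Yh Z ^ 12 = (Z : ℝ) / 78732 := by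
  unfold Yh
  exact root_twelve (by positivity)

lemma reg_iff (Y : ℝ) (hY : 0 ≤ Y) (a b : ℤ) :
    Reg Y a b ↔ ((F4 a b).natAbs : ℝ) ^ 3 ≤ Y ^ 12 ∧ ((F6 a b).natAbs : ℝ) ^ 2 ≤ Y ^ 12 := by
  unfold Reg
  have h1 : ((F4 a b).natAbs : ℝ) = |(F4 a b : ℝ)| := by
    rw [Nat.cast_natAbs, Int.cast_abs]
  have h2 : ((F6 a b).natAbs : ℝ) = |(F6 a b : ℝ)| := by
    rw [Nat.cast_natAbs, Int.cast_abs]
  have e1 : Y ^ 12 = (Y ^ 4) ^ 3 := by ring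
  have e2 : Y ^ 12 = (Y ^ 6) ^ 2 := by ring
  rw [h1, h2]
  have i1 : |(F4 a b : ℝ)| ^ 3 ≤ Y ^ 12 ↔ |(F4 a b : ℝ)| ≤ Y ^ 4 := by
    rw [e1]
    exact pow_le_pow_iff_left₀ (abs_nonneg _) (by positivity) (by norm_num)
  have i2 : |(F6 a b : ℝ)| ^ 2 ≤ Y ^ 12 ↔ |(F6 a b : ℝ)| ≤ Y ^ 6 := by
    rw [e2]
    exact pow_le_pow_iff_left₀ (abs_nonneg _) (by positivity) (by norm_num)
  rw [i1, i2]

lemma height_iff (hH : S_HGT) {W : WeierstrassCurve ℤ} {a b : ℤ} (hs : Semistable W)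
    (ha : Adm a b) (h4 : W.c₄ = F4 a b) (h6 : W.c₆ = F6 a b) (Z : ℕ) :
    height W ≤ Z ↔ Reg (Yh Z) a b := by
  have h3 : ¬ (3 : ℤ) ∣ W.c₄ := by rw [h4]; exact not_three ha.1
  have hh := hH W hs h3
  rw [reg_iff _ (Yh_nonneg _), Yh_twelve]
  have hmax : ∀ c : ℝ, ((F4 a b).natAbs : ℝ) ^ 3 ≤ c ∧ ((F6 a b).natAbs : ℝ) ^ 2 ≤ c ↔
      ((max (W.c₄.natAbs ^ 3) (W.c₆.natAbs ^ 2) : ℕ) : ℝ) ≤ c := by
    intro c
    rw [h4, h6, Nat.cast_max, max_le_iff]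
    push_cast
    rfl
  rw [hmax]
  generalize max (W.c₄.natAbs ^ 3) (W.c₆.natAbs ^ 2) = m at hh ⊢
  have hh' : (height W : ℝ) = 78732 * (m : ℝ) := by exact_mod_cast hh
  rw [le_div_iff₀ (by norm_num : (0 : ℝ) < 78732)]
  constructor
  · intro h
    have : (height W : ℝ) ≤ Z := by exact_mod_cast h
    linarith
  · intro h
    have : (height W : ℝ) ≤ Z := by linarith
    exact_mod_cast this

lemma mem_box (hB : S_BOX) {Y : ℝ} {a b : ℤ} (hY : 0 ≤ Y) (h : Reg Y a b) :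
    (a, b) ∈ Bx ⌈Y⌉₊ := by
  obtain ⟨h1, h2⟩ := hB Y a b hY h
  have hN : Y ≤ (⌈Y⌉₊ : ℝ) := Nat.le_ceil Y
  generalize ⌈Y⌉₊ = N at hN ⊢
  have h3 : |(a : ℝ)| ≤ ((2 * (N : ℤ) : ℤ) : ℝ) := by
    push_cast
    linarith
  have h4 : |(b : ℝ)| ≤ (((N : ℤ) ^ 3 : ℤ) : ℝ) := by
    push_cast
    exact h2.trans (pow_le_pow_left₀ hY hN 3)
  have h3' : |a| ≤ 2 * (N : ℤ) := by exact_mod_cast h3
  have h4' : |b| ≤ (N : ℤ) ^ 3 := by exact_mod_cast h4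
  rw [abs_le] at h3' h4'
  unfold Bx
  rw [mem_product, mem_Icc, mem_Icc]
  exact ⟨⟨h3'.1, h3'.2⟩, ⟨h4'.1, h4'.2⟩⟩

open Classical in
/-- the pairs with the property `P` -/
noncomputable def XX (P : ℤ → Prop) (Z : ℕ) : Finset (ℤ × ℤ) :=
  (FS (Yh Z)).filter fun z => P (w z.1 z.2)

lemma mem_XX (P : ℤ → Prop) (Z : ℕ) (z : ℤ × ℤ) : z ∈ XX P Z ↔
    z ∈ Bx ⌈Yh Z⌉₊ ∧ Adm z.1 z.2 ∧ Reg (Yh Z) z.1 z.2 ∧ P (w z.1 z.2) := by
  classical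
  unfold XX FS
  simp only [mem_filter]
  tauto

/-- the map to the classes -/
def Φ (z : ℤ × ℤ) : ℤ × ℤ := (F4 z.1 z.2, F6 z.1 z.2)

lemma F4_neg (a b : ℤ) : F4 (-a) (-b) = F4 a b := by unfold F4; ring

lemma F6_neg (a b : ℤ) : F6 (-a) (-b) = F6 a b := by unfold F6; ring

lemma Φ_neg (z : ℤ × ℤ) : Φ (-z) = Φ z := by
  simp only [Φ, Prod.fst_neg, Prod.snd_neg, F4_neg, F6_neg]

lemma fam_eq (hP : S_PAR) (hC : S_CONV) (hW : S_WRT) (hH : S_HGT) (hB : S_BOX) (P : ℤ → Prop)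
    (Z : ℕ) : Fam P Z = Φ '' (XX P Z : Set (ℤ × ℤ)) := by
  ext z
  constructor
  · rintro ⟨W, hs, ht, hZ, hPw, rfl⟩
    obtain ⟨a, b, ha, h4, h6⟩ := hP W hs ht
    have hreg := (height_iff hH hs ha h4 h6 Z).1 hZ
    refine ⟨(a, b), ?_, ?_⟩
    · rw [mem_coe, mem_XX]
      refine ⟨mem_box hB (Yh_nonneg _) hreg, ha, hreg, ?_⟩
      rw [(hW W a b hs ha h4 h6).2] at hPw
      exact hPw
    · simp only [Φ, h4, h6]
  · rintro ⟨⟨a, b⟩, hs, rfl⟩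
    rw [mem_coe, mem_XX] at hs
    obtain ⟨-, ha, hreg, hw⟩ := hs
    simp only at ha hreg hw
    obtain ⟨W, hs, ht, h4, h6⟩ := hC a b ha
    refine ⟨W, hs, ht, (height_iff hH hs ha h4 h6 Z).2 hreg, ?_, ?_⟩
    · rw [(hW W a b hs ha h4 h6).2]; exact hw
    · simp only [Φ, h4, h6]

lemma neg_mem (hs : S_SGN) (hB : S_BOX) (P : ℤ → Prop) (Z : ℕ) (z : ℤ × ℤ) (hz : z ∈ XX P Z) :
    -z ∈ XX P Z := by
  obtain ⟨a, b⟩ := z
  rw [mem_XX] at hz ⊢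
  obtain ⟨-, ha, hreg, hw⟩ := hz
  simp only at ha hreg hw
  obtain ⟨h1, h2, -⟩ := hs a b ha
  have hreg' : Reg (Yh Z) (-a) (-b) := by
    unfold Reg at hreg ⊢
    rw [F4_neg, F6_neg]
    exact hreg
  simp only [Prod.neg_mk]
  refine ⟨mem_box hB (Yh_nonneg _) hreg', h1, hreg', ?_⟩
  rw [h2]
  exact hw

open Classical in
lemma fibre (hM : S_MUL) (hs : S_SGN) (hB : S_BOX) (P : ℤ → Prop) (Z : ℕ) (z : ℤ × ℤ)
    (hz : z ∈ XX P Z) : ((XX P Z).filter fun z' => Φ z' = Φ z).card = 2 := by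
  have h1 : ((XX P Z).filter fun z' => Φ z' = Φ z) = {z, -z} := by
    ext z'
    rw [mem_filter, mem_insert, mem_singleton]
    constructor
    · rintro ⟨h1, h2⟩
      rw [mem_XX] at h1 hz
      simp only [Φ, Prod.mk.injEq] at h2
      rcases hM z.1 z.2 z'.1 z'.2 hz.2.1 h1.2.1 h2.1.symm h2.2.symm with h | h
      · left
        exact Prod.ext h.1 h.2
      · right
        exact Prod.ext h.1 h.2
    · rintro (rfl | rfl)
      · exact ⟨hz, rfl⟩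
      · exact ⟨neg_mem hs hB P Z z hz, Φ_neg z⟩
  rw [h1]
  apply card_pair
  intro h
  rw [mem_XX] at hz
  have h2 : z.1 = -z.1 := by
    have := congrArg Prod.fst h
    simpa using this
  have h3 : z.1 = 0 := by omega
  exact hz.2.1.1 (h3 ▸ dvd_zero 3)

theorem t_FA (hP : S_PAR) (hC : S_CONV) (hW : S_WRT) (hH : S_HGT) (hM : S_MUL) (hs : S_SGN)
    (hB : S_BOX) : S_FA := by
  classical
  intro Z P
  have he := fam_eq hP hC hW hH hB P Z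
  have hfin : (Fam P Z).Finite := by
    rw [he]
    exact (XX P Z).finite_toSet.image _
  refine ⟨hfin, ?_⟩
  have hc : (Fam P Z).ncard = ((XX P Z).image Φ).card := by
    rw [he, ← coe_image, Set.ncard_coe_finset]
  have h1 : (XX P Z).card = 2 * ((XX P Z).image Φ).card := by
    rw [card_eq_sum_card_image Φ (XX P Z)]
    rw [sum_const_nat (m := 2), mul_comm]
    intro y hy
    obtain ⟨z, hz, rfl⟩ := mem_image.1 hy
    exact fibre hM hs hB P Z z hz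
  rw [hc, ← h1]
  unfold XX
  congr!

end Pool.Agent.K1H74.T3
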